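import Pool.Agent.CDTA.Final

/-!
# Adaptive constant depth tests for `k`-SAT with two-sided error

A test is a polynomial `f` in variables `x_C`, one for every clause `C` with `k` literals. Its answer
on a formula `φ` is whether `f` with `x_C = 0` for all clauses `C` of `φ` is a nonzero polynomial (a
randomised algorithm finds this out by evaluating `f` at random values). The coefficients lie in any
field `F`, for instance a field of rational functions in further variables. An algorithm chooses at
random `N` tests and a decision tree (`Pool.AD.DT`), which asks some of these tests one after the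
other, depending on the answers before, and accepts or rejects. `Pool.AD.DT.ones` is the set of the
tests which are asked and answered `nonzero`.

The tests are computed by circuits of constant depth: sums of `T` products of `S` polynomials of
level `l`; a polynomial of level `l + 1` is any polynomial in `w` sums of `S` products of `S`
polynomials of level `l`, and a polynomial of level `0` is any polynomial in `w₀` polynomials of
degree at most one.
-/

set_option autoImplicit false

open scoped BigOperators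

namespace Pool.Agent.Results.MP_b6562f_lc.AdaptiveConstantDepthTests

open MvPolynomial

/-- A clause with exactly `k` literals, on `k` different variables among `n` Boolean variables. The
literal `(i, s)` is true if the variable `i` has the value `s`. -/
abbrev Clause (n k : ℕ) : Type :=
  {C : Finset (Fin n × Bool) // C.card = k ∧ ∀ i, ¬ ((i, true) ∈ C ∧ (i, false) ∈ C)}

/-- The formula `φ` (a conjunction of clauses) is satisfiable. -/
def Satisfiable {n k : ℕ} (φ : Finset (Clause n k)) : Prop :=
  ∃ a : Fin n → Bool, ∀ C ∈ φ, ∃ p ∈ C.1, a p.1 = p.2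

/-- The polynomial `f` with `x_C` replaced by `0` for all clauses `C` of `φ`. -/
noncomputable def onFormula {n k : ℕ} {F : Type} [Field F] (φ : Finset (Clause n k))
    (f : MvPolynomial (Clause n k) F) : MvPolynomial (Clause n k) F :=
  aeval (fun C => if C ∈ φ then 0 else X C) f

/-- The polynomials of level `l`. Level `0`: any polynomial in `w₀` polynomials of degree at most
one. Level `l + 1`: any polynomial in `w` sums of `S` products of `S` polynomials of level `l`. -/
def Level {V F : Type} [Field F] (w₀ w S : ℕ) : ℕ → Set (MvPolynomial V F)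
  | 0 => {g | ∃ (L : Fin w₀ → MvPolynomial V F) (Q : MvPolynomial (Fin w₀) F),
      (∀ i, (L i).totalDegree ≤ 1) ∧ g = aeval L Q}
  | l + 1 => {g | ∃ (h : Fin w → Fin S → Fin S → MvPolynomial V F)
      (Q : MvPolynomial (Fin w) F), (∀ a b c, h a b c ∈ Level w₀ w S l) ∧
        g = aeval (fun a => ∑ b, ∏ c, h a b c) Q}

/-- `f` is a sum of `T` products of `S` polynomials of level `l`. -/
def IsSum {V F : Type} [Field F] (w₀ w S l T : ℕ) (f : MvPolynomial V F) : Prop :=
  ∃ h : Fin T → Fin S → MvPolynomial V F, (∀ i j, h i j ∈ Level w₀ w S l) ∧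
    f = ∑ i, ∏ j, h i j

open Classical in
/-- **Theorem.** Let a random choice of `N` tests of degree at most one in every variable `x_C`, which
are sums of `T` products of `S` polynomials of level `l`, and of a decision tree of any depth, with
at most `h` answers `nonzero` on every path, decide `k`-SAT, `k ≥ 3`, for `n` variables, with errors
`ε₁` on satisfiable and `ε₂` on unsatisfiable formulas, `ε₁ + ε₂ < 1`. Then
`log (2 N T) ≥ (n / (C N)) exp (- C (h / (1 - ε₁ - ε₂)) ^ 3 ((log S) ^ (1 - η) (log (2 w)) ^ η + log w₀))`,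
`η = 1 / (fib (2 l + 4) - 1)`, where `C` depends only on `k` and `l`. -/
theorem result : ∀ k l : ℕ, 3 ≤ k → ∃ C : ℝ, 0 < C ∧
    ∀ (F : Type) [Field F] (Ω : Type) [Fintype Ω] (n N h T S w w₀ : ℕ) (ε₁ ε₂ : ℝ)
      (p : Ω → ℝ) (f : Ω → Fin N → MvPolynomial (Clause n k) F) (t : Ω → Pool.AD.DT N),
    1 ≤ N → 1 ≤ h → 1 ≤ T → 2 ≤ S → 1 ≤ w → w ≤ S → 1 ≤ w₀ →
    0 ≤ ε₁ → 0 ≤ ε₂ → ε₁ + ε₂ < 1 → (∀ ω, 0 ≤ p ω) → ∑ ω, p ω = 1 →
    (∀ ω v, IsSum w₀ w S l T (f ω v)) →
    (∀ ω v, ∀ ν ∈ (f ω v).support, ∀ c, ν c ≤ 1) →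
    (∀ ω b, ((t ω).ones b).card ≤ h) →
    (∀ φ, Satisfiable φ →
      (∑ ω, if (t ω).eval (fun v => decide (onFormula φ (f ω v) ≠ 0)) = false then p ω else 0) ≤ ε₁) →
    (∀ φ, ¬ Satisfiable φ →
      (∑ ω, if (t ω).eval (fun v => decide (onFormula φ (f ω v) ≠ 0)) = true then p ω else 0) ≤ ε₂) →
    n / N * Real.exp (-(C * ((h / (1 - ε₁ - ε₂)) ^ 3 *
      (Real.log S ^ (1 - 1 / ((Nat.fib (2 * l + 4) : ℝ) - 1)) *
        Real.log (2 * w) ^ (1 / ((Nat.fib (2 * l + 4) : ℝ) - 1)) + Real.log w₀)))) ≤
      C * Real.log (2 * N * T) := by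
  intro k l hk
  obtain ⟨d, rfl⟩ : ∃ d, k = d + 1 := ⟨k - 1, by omega⟩
  obtain ⟨C, hC, H⟩ := Pool.CDTA.cdta d l (by omega)
  refine ⟨C, hC, ?_⟩
  intro F _ Ω _ n N h T S w w₀ ε₁ ε₂ p f t hN hh hT hS hw hwS hw0 hε1 hε2 hε hp hp1 hf hml ht
    hyes hno
  have hlev : ∀ (m : ℕ) (g : MvPolynomial (Clause n (d + 1)) F), g ∈ Level w₀ w S m →
      g ∈ Pool.Agent.Helper41.CD.Cls w₀ w S m := by
    intro m
    induction m with
    | zero => exact fun g hg => hg
    | succ m ih =>
      rintro g ⟨h, Q, h1, rfl⟩
      exact ⟨h, Q, fun a b c => ih _ (h1 a b c), rfl⟩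
  exact H F Ω n N h T S w w₀ ε₁ ε₂ p f t hN hh hT hS hw hwS hw0 hε1 hε2 hε hp hp1
    (fun ω v => by
      obtain ⟨h, h1, h2⟩ := hf ω v
      exact ⟨h, fun i j => hlev l _ (h1 i j), h2⟩) hml ht hyes hno

end Pool.Agent.Results.MP_b6562f_lc.AdaptiveConstantDepthTests
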