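import Pool.Agent.XDS.Circ

/-!
# Constant depth tests for `k`-SAT with one-sided error have exponential size

A test is a polynomial `f` in variables `x_C`, one for every clause `C` with `k` literals. It accepts
a formula `φ` if `f` with `x_C = 0` for all clauses `C` of `φ` is a nonzero polynomial (a randomised
algorithm finds this out by evaluating `f` at random values). The coefficients lie in any field
`F`, for instance a field of rational functions in further variables. The test is computed by an
arithmetic circuit of constant depth: sums and products of any number of earlier results, and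
arbitrary polynomials of `w` earlier results.
-/

set_option autoImplicit false

open scoped BigOperators

namespace Pool.Agent.Results.MP_b6562f_lc.ExponentialConstantDepthTests

open MvPolynomial

/-- A clause with exactly `k` literals, on `k` different variables among `n` Boolean variables. The
literal `(i, s)` is true if the variable `i` has the value `s`. -/
abbrev Clause (n k : ℕ) : Type :=
  {C : Finset (Fin n × Bool) // C.card = k ∧ ∀ i, ¬ ((i, true) ∈ C ∧ (i, false) ∈ C)}

/-- The assignment `a` satisfies the formula `φ` (a conjunction of clauses). -/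
def Satisfies {n k : ℕ} (a : Fin n → Bool) (φ : Finset (Clause n k)) : Prop :=
  ∀ C ∈ φ, ∃ p ∈ C.1, a p.1 = p.2

/-- The polynomial `f` with `x_C` replaced by `0` for all clauses `C` of `φ`. -/
noncomputable def onFormula {n k : ℕ} {F : Type} [Field F] (φ : Finset (Clause n k))
    (f : MvPolynomial (Clause n k) F) : MvPolynomial (Clause n k) F :=
  aeval (fun C => if C ∈ φ then 0 else X C) f

/-- `P 0, ..., P (s - 1)` are the polynomials at the `s` gates of an arithmetic circuit over the
field `F` with at most `d` product gates and arbitrary gates on each path. Every gate is a sum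
gate: a linear combination of the constant `1`, of the variables and of earlier gates; or a product
gate: a constant times a product of powers of variables and of earlier gates; or an arbitrary gate:
any polynomial, of any degree and any complexity, in `w` earlier gates. -/
def IsCircuit {V F : Type} [Fintype V] [Field F] (d w : ℕ) {s : ℕ}
    (P : Fin s → MvPolynomial V F) : Prop :=
  ∃ depth : Fin s → ℕ, ∀ g, depth g ≤ d ∧
    ((∃ (a₀ : F) (a : V → F) (c : Fin s → F), (∀ h, c h ≠ 0 → h < g ∧ depth h ≤ depth g) ∧
        P g = C a₀ + ∑ v, C (a v) * X v + ∑ h, C (c h) * P h) ∨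
     (∃ (a₀ : F) (a : V → ℕ) (e : Fin s → ℕ), 0 < depth g ∧
        (∀ h, e h ≠ 0 → h < g ∧ depth h < depth g) ∧
        P g = C a₀ * (∏ v, X v ^ a v) * ∏ h, P h ^ e h) ∨
     (∃ (t : Fin w → Fin s) (Q : MvPolynomial (Fin w) F), 0 < depth g ∧
        (∀ i, t i < g ∧ depth (t i) < depth g) ∧ P g = aeval (fun i => P (t i)) Q))

/-- `f` is computed by a circuit with `s` gates and at most `d` product gates and arbitrary gates
on each path. -/
def Computed {V F : Type} [Fintype V] [Field F] (d w s : ℕ) (f : MvPolynomial V F) : Prop :=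
  ∃ P : Fin s → MvPolynomial V F, IsCircuit d w P ∧ ∃ g, P g = f

open Classical in
/-- **Theorem.** For every `k ≥ 3` there is `c > 0` such that the following holds for every `d ≥ 1`
and every field. Let `f` be a random test for `k`-SAT which never accepts an unsatisfiable formula
and accepts each formula with exactly one satisfying assignment with probability at least `δ`;
always of degree at most one in every variable `x_C`, or of total degree at most `n.choose k`; and
always computed by a circuit with `s` gates and at most `d` product gates and arbitrary gates of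
fan-in `w` on each path. Then `(2 n) ^ w (s + n) ≥ δ exp (c n ^ (1 / (3 fib (2 d + 2) - 4)))`. -/
theorem result : ∀ k : ℕ, 3 ≤ k → ∃ c : ℝ, 0 < c ∧
    ∀ d : ℕ, 1 ≤ d → ∀ (F : Type) [Field F] (Ω : Type) [Fintype Ω] (n s w : ℕ) (δ : ℝ) (p : Ω → ℝ)
      (f : Ω → MvPolynomial (Clause n k) F),
    1 ≤ n → 1 ≤ w → 0 < δ → δ ≤ 1 →
    (∀ ω, 0 ≤ p ω) → ∑ ω, p ω = 1 →
    (∀ ω, Computed d w s (f ω)) →
    (∀ ω, (∀ ν ∈ (f ω).support, ∀ C, ν C ≤ 1) ∨ (f ω).totalDegree ≤ n.choose k) →
    (∀ φ, (¬ ∃ a, Satisfies a φ) → ∀ ω, onFormula φ (f ω) = 0) →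
    (∀ φ, (∃! a, Satisfies a φ) → δ ≤ ∑ ω, if onFormula φ (f ω) ≠ 0 then p ω else 0) →
    δ * Real.exp (c * (n : ℝ) ^ (1 / (3 * (Nat.fib (2 * d + 2) : ℝ) - 4))) ≤
      (2 * n : ℝ) ^ w * (s + n) := by
  intro k hk
  obtain ⟨m, rfl⟩ : ∃ m, k = m + 1 := ⟨k - 1, by omega⟩
  obtain ⟨c, hc, H⟩ := Pool.XDS.xds_circ m (by omega)
  refine ⟨c, hc, ?_⟩
  intro d hd F _ Ω _ n s w δ p f hn hw hδ hδ1 hp hp1 hf hml hno hyes
  obtain ⟨l, rfl⟩ : ∃ l, d = l + 1 := ⟨d - 1, by omega⟩
  have hne : Nonempty Ω := by
    by_contra hcon
    rw [not_nonempty_iff] at hcon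
    rw [Fintype.sum_empty] at hp1
    exact zero_ne_one hp1
  obtain ⟨ω⟩ := hne
  have hs : 1 ≤ s := by
    obtain ⟨P, -, g, -⟩ := hf ω
    have := g.2
    omega
  exact H F Ω l n s w δ p f hn hs hw hδ hδ1 hp hp1 hf hml hno hyes

end Pool.Agent.Results.MP_b6562f_lc.ExponentialConstantDepthTests
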