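import Pool.Agent.Helper34.BIC.ThmA

/-!
# Bicircular restriction and cobicircular contraction force a large uniform minor

Problem MP_5165fa_co (Geelen).  For every positive integer `k` there is an integer `n` such that
every finite matroid `M` with disjoint sets `E₁`, `E₂` of elements for which

* the restriction `M | E₁` is isomorphic to `B(G_n^+)`,
* the contraction `M / (E(M) - E₂)` is isomorphic to `B^*(G_n^+)`,
* `κ_M(E₁, E₂) ≥ n`,

has a `U_{k,2k}`-minor.
-/

namespace Pool.Agent.Results.MP_5165fa_co.RestrictionContraction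

open Set BIC
open scoped Matroid

universe u

theorem result (k : ℕ) (hk : 0 < k) : ∃ n : ℕ, ∀ (α : Type u) (M : Matroid α), M.Finite →
    ∀ E₁ E₂ : Set α, E₁ ⊆ M.E → E₂ ⊆ M.E → Disjoint E₁ E₂ →
    IsBicircular (M ↾ E₁) (GPlus n) →
    IsBicircular (M ／ (M.E \ E₂))✶ (GPlus n) →
    (∀ X : Set α, E₁ ⊆ X → X ⊆ M.E \ E₂ → (n : ℕ∞) + M.eRk M.E ≤ M.eRk X + M.eRk (M.E \ X)) →
    ∃ N : Matroid α, N ≤m M ∧ N.E.ncard = 2 * k ∧ ∀ B, N.IsBase B ↔ B ⊆ N.E ∧ B.ncard = k := by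
  obtain ⟨n, hn⟩ := thmA.{u} k hk
  refine ⟨n, ?_⟩
  intro α M hM E₁ E₂ h1 h2 h12 hb1 hb2 hκ
  have hb2' : IsBicircular (M✶ ↾ E₂) (GPlus n) := by
    have e : (M ／ (M.E \ E₂))✶ = M✶ ↾ E₂ := by
      rw [Matroid.dual_contract]
      have := M✶.delete_compl (R := E₂) (by rw [Matroid.dual_ground]; exact h2)
      rw [Matroid.dual_ground] at this
      exact this
    rw [← e]
    exact hb2
  refine hn M E₁ E₂ h1 h2 h12 hb1 hb2' ?_
  intro X hX1 hX2
  have h3 := hκ X hX1 hX2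
  rw [← cast_rk, ← cast_rk, ← cast_rk] at h3
  exact_mod_cast h3

end Pool.Agent.Results.MP_5165fa_co.RestrictionContraction
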